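import Pool.Agent.U168.PP.Bi

/-!
The truncated inequality of Vojta on `ℙ¹ × ℙ¹` along fibres and along the curves of bidegree `(1, 1)`
through two double points of the divisor.
-/

set_option autoImplicit false
set_option linter.unusedSectionVars false

namespace Pool.Agent.U168.PP

open NumberField IsDedekindDomain Height Finset Pool.Agent.W231.V Pool.Agent.U168.VJ
open Pool.Agent.W231.G (exists_bad fv_mv_le)
open Pool.Agent.W231.H (Bad lin lin_eval)

variable {K : Type*} [Field K] [NumberField K]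

lemma exists_eval_ne {σ : Type*} (P : MvPolynomial σ K) (hP : P ≠ 0) :
    ∃ x : σ → K, MvPolynomial.eval x P ≠ 0 := by
  by_contra hcon
  push Not at hcon
  exact hP (MvPolynomial.funext fun x => by rw [hcon x, map_zero])

lemma exists_unit_primes (cs : Finset K) : ∃ T : Finset (HeightOneSpectrum (𝓞 K)), ∀ v ∉ T,
    ∀ c ∈ cs, (c ≠ 0 → fv v c = 1) ∧ fv v c ≤ 1 := exists_bad cs

lemma exists_mxv_one (β : Fin 2 → K) (hβ : β 0 ≠ 0) : ∃ T : Finset (HeightOneSpectrum (𝓞 K)),
    ∀ v ∉ T, mxv v β = 1 := by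
  classical
  obtain ⟨T, hT⟩ := exists_bad {β 0, β 1}
  refine ⟨T, fun v hv => ?_⟩
  have h0 := (hT v hv (β 0) (by simp)).1 hβ
  have h1 := (hT v hv (β 1) (by simp)).2
  unfold mxv
  rw [h0]
  exact max_eq_left h1

/-- three fibres -/
theorem part1 (F : MvPolynomial (Fin 2 ⊕ Fin 2) K) {q r : ℕ} (hF : F ≠ 0)
    (hFd : F.IsWeightedHomogeneous wt (q, r)) (a : Fin 3 → Fin 2 → K)
    (ha : ∀ i j, i ≠ j → dt (a i) (a j) ≠ 0) (hdiv : (∏ i, fib1 (a i)) ∣ F)
    (G : MvPolynomial (Fin 2 ⊕ Fin 2) K) {b c : ℕ} (hG : G ≠ 0)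
    (hGd : G.IsWeightedHomogeneous wt (b, c)) :
    ∃ A1 A2 C : ℝ, ∀ B : ℝ, ∃ (s u : Fin 2 → K) (t : ℝ), B ≤ t ∧
      MvPolynomial.eval (Sum.elim s u) F ≠ 0 ∧ MvPolynomial.eval (Sum.elim s u) G ≠ 0 ∧
      s ≠ 0 ∧ u ≠ 0 ∧
      logHeight s + logHeight u ≤ (totalWeight K : ℝ) * t + A1 ∧
      (totalWeight K : ℝ) * t - A2 ≤ logHeight s + logHeight u ∧
      cnt F q r s u + (totalWeight K : ℝ) * (6.84 * √t / Real.log t) ≤
        ((q : ℝ) - 2) * logHeight s + ((r : ℝ) - 2) * logHeight u + C := by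
  classical
  obtain ⟨y, hy⟩ := exists_eval_ne (F * G * MvPolynomial.X (Sum.inr 0))
    (mul_ne_zero (mul_ne_zero hF hG) (MvPolynomial.X_ne_zero _))
  set s0 : Fin 2 → K := fun i => y (Sum.inl i) with hs0
  set β : Fin 2 → K := fun j => y (Sum.inr j) with hβ
  have hyel : y = Sum.elim s0 β := by
    funext i
    rcases i with i | j <;> rfl
  rw [map_mul, map_mul, MvPolynomial.eval_X] at hy
  have hyF : MvPolynomial.eval y F ≠ 0 := left_ne_zero_of_mul (left_ne_zero_of_mul hy)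
  have hyG : MvPolynomial.eval y G ≠ 0 := right_ne_zero_of_mul (left_ne_zero_of_mul hy)
  have hβ0 : β 0 ≠ 0 := right_ne_zero_of_mul hy
  set f : Fin 2 ⊕ Fin 2 → MvPolynomial (Fin 2) K :=
    Sum.elim (fun i => MvPolynomial.X i) (fun j => MvPolynomial.C (β j)) with hf
  have hfx : ∀ x : Fin 2 → K, (fun i => MvPolynomial.eval x (f i)) = Sum.elim x β := by
    intro x
    funext i
    rcases i with i | j <;> simp [hf]
  have hev : ∀ (P : MvPolynomial (Fin 2 ⊕ Fin 2) K) (x : Fin 2 → K),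
      MvPolynomial.eval x (MvPolynomial.aeval f P) = MvPolynomial.eval (Sum.elim x β) P := by
    intro P x
    rw [eval_subst, hfx]
  have hf1 : ∀ i, (f (Sum.inl i)).IsHomogeneous 1 := fun i => MvPolynomial.isHomogeneous_X K i
  have hf2 : ∀ j, (f (Sum.inr j)).IsHomogeneous 0 := fun j => MvPolynomial.isHomogeneous_C _ _
  have hF1d : (MvPolynomial.aeval f F).IsHomogeneous q := by
    have := bi_subst hFd f hf1 hf2
    simpa using this
  have hG1d : (MvPolynomial.aeval f G).IsHomogeneous b := by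
    have := bi_subst hGd f hf1 hf2
    simpa using this
  have hF1 : MvPolynomial.aeval f F ≠ 0 := by
    intro h
    apply hyF
    rw [hyel, ← hev, h, map_zero]
  have hG1 : MvPolynomial.aeval f G ≠ 0 := by
    intro h
    apply hyG
    rw [hyel, ← hev, h, map_zero]
  have hd : (∏ i, lin (pf (a i))) ∣ MvPolynomial.aeval f F := by
    obtain ⟨E, hE⟩ := hdiv
    refine ⟨MvPolynomial.aeval f E, ?_⟩
    rw [hE, map_mul, map_prod]
    congr 1
    exact Finset.prod_congr rfl fun i _ => fib1_subst (a i) f fun j => rfl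
  obtain ⟨a1, a2, C, T1, hmain⟩ := curve a ha _ hF1 hF1d hd _ hG1 hG1d
  obtain ⟨T2, hT2⟩ := exists_mxv_one β hβ0
  refine ⟨a1 + logHeight β, a2 - logHeight β, C + ∑ v ∈ T1 ∪ T2, ell v -
    ((r : ℝ) - 2) * logHeight β, fun B => ?_⟩
  obtain ⟨x, t, hBt, hFx, hGx, hup, hlow, hfin, hsum⟩ := hmain B
  rw [hev] at hFx hGx
  refine ⟨x, β, t, hBt, hFx, hGx, ?_, fun h => hβ0 (by rw [h]; rfl), by linarith, by linarith, ?_⟩
  · -- `x ≠ 0`: otherwise a linear factor vanishes
    intro hx0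
    apply hFx
    obtain ⟨E, hE⟩ := hd
    rw [← hev, hE, map_mul, map_prod]
    have : ∏ i, MvPolynomial.eval x (lin (pf (a i))) = 0 := by
      refine Finset.prod_eq_zero (mem_univ (0 : Fin 3)) ?_
      rw [pf_eval, hx0]
      unfold dt
      simp
    rw [this, zero_mul]
  have h1 := cnt_le F q r x β (T1 ∪ T2) hfin.toFinset (by
    intro v hv hvT
    rw [Finset.mem_union, not_or] at hv
    rw [Set.Finite.mem_toFinset] at hvT
    have h2 : ¬ fv v (MvPolynomial.eval x (MvPolynomial.aeval f F)) < mxv v x ^ q := fun h =>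
      hvT ⟨hv.1, h⟩
    rw [hev] at h2
    rw [hT2 v hv.2, one_pow, mul_one]
    exact not_lt.1 h2)
  have h2 := hsum hfin.toFinset fun v hv => hfin.mem_toFinset.1 hv
  linarith

/-- the bound for the values of a form at a finite place -/
lemma fv_form_le (v : HeightOneSpectrum (𝓞 K)) (R : MvPolynomial (Fin 2) K) {d : ℕ}
    (hR : R.IsHomogeneous d) (hc : ∀ m, fv v (R.coeff m) ≤ 1) (x : Fin 2 → K) :
    fv v (MvPolynomial.eval x R) ≤ mxv v x ^ d := by
  have hpos : 0 ≤ mxv v x ^ d := pow_nonneg (mxv_nonneg v x) d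
  rw [MvPolynomial.eval_eq']
  have key : ∀ m ∈ R.support, fv v (R.coeff m * ∏ i, x i ^ m i) ≤ mxv v x ^ d := by
    intro m hm
    have hdeg := hR (MvPolynomial.mem_support_iff.1 hm)
    have hdeg' : ∑ i, m i = d := by
      rw [← hdeg, Finsupp.weight_apply, Finsupp.sum_fintype _ _ (by simp)]
      simp
    rw [map_mul, map_prod]
    calc fv v (R.coeff m) * ∏ i, fv v (x i ^ m i) ≤ 1 * ∏ i, mxv v x ^ m i := by
          refine mul_le_mul (hc m) ?_ (Finset.prod_nonneg fun i _ => (fv v).nonneg _) zero_le_one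
          refine Finset.prod_le_prod (fun i _ => (fv v).nonneg _) fun i _ => ?_
          rw [map_pow]
          exact pow_le_pow_left₀ ((fv v).nonneg _) (le_mxv v x i) _
      _ = mxv v x ^ d := by rw [one_mul, Finset.prod_pow_eq_pow_sum, hdeg']
  have hsum : ∀ S : Finset (Fin 2 →₀ ℕ), S ⊆ R.support →
      fv v (∑ m ∈ S, R.coeff m * ∏ i, x i ^ m i) ≤ mxv v x ^ d := by
    intro S
    induction S using Finset.induction_on with
    | empty => intro _; simpa using hpos
    | insert m S hm ih =>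
      intro hS
      rw [Finset.sum_insert hm]
      refine (fv_na v _ _).trans (max_le (key m (hS (Finset.mem_insert_self m S))) (ih ?_))
      exact (Finset.subset_insert m S).trans hS
  exact hsum _ (Finset.Subset.refl _)

/-- the factor of a form -/
lemma hom_of_X_mul {R : MvPolynomial (Fin 2) K} {i : Fin 2} {d : ℕ}
    (h : (MvPolynomial.X i * R).IsHomogeneous (d + 1)) : R.IsHomogeneous d := by
  intro m hm
  have h1 : MvPolynomial.coeff (Finsupp.single i 1 + m) (MvPolynomial.X i * R) ≠ 0 := by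
    rwa [MvPolynomial.coeff_X_mul]
  have h2 := h h1
  rw [map_add] at h2
  have h3 : Finsupp.weight (1 : Fin 2 → ℕ) (Finsupp.single i 1) = 1 := by
    rw [Finsupp.weight_single]
    simp
  rw [h3] at h2
  omega

/-- two double points and a fibre -/
theorem part2 (F : MvPolynomial (Fin 2 ⊕ Fin 2) K) {q r : ℕ} (hF : F ≠ 0)
    (hFd : F.IsWeightedHomogeneous wt (q, r)) (e : Fin 2 → K) (he0 : e 0 ≠ 0) (he1 : e 1 ≠ 0)
    (hdiv : fib1 e ∣ F)
    (hm0 : ∀ m ∈ F.support, 2 ≤ m (Sum.inl 0) + m (Sum.inr 0))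
    (hm1 : ∀ m ∈ F.support, 2 ≤ m (Sum.inl 1) + m (Sum.inr 1))
    (G : MvPolynomial (Fin 2 ⊕ Fin 2) K) {b c : ℕ} (hG : G ≠ 0)
    (hGd : G.IsWeightedHomogeneous wt (b, c)) :
    ∃ A1 A2 C : ℝ, ∀ B : ℝ, ∃ (s u : Fin 2 → K) (t : ℝ), B ≤ t ∧
      MvPolynomial.eval (Sum.elim s u) F ≠ 0 ∧ MvPolynomial.eval (Sum.elim s u) G ≠ 0 ∧
      s ≠ 0 ∧ u ≠ 0 ∧
      logHeight s + logHeight u ≤ 2 * ((totalWeight K : ℝ) * t) + A1 ∧
      2 * ((totalWeight K : ℝ) * t) - A2 ≤ logHeight s + logHeight u ∧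
      cnt F q r s u + (totalWeight K : ℝ) * (6.84 * √t / Real.log t) ≤
        ((q : ℝ) - 2) * logHeight s + ((r : ℝ) - 2) * logHeight u + C := by
  classical
  obtain ⟨y, hy⟩ := exists_eval_ne (F * G * (MvPolynomial.X (Sum.inl 0) * MvPolynomial.X (Sum.inl 1) *
      MvPolynomial.X (Sum.inr 0) * MvPolynomial.X (Sum.inr 1)))
    (mul_ne_zero (mul_ne_zero hF hG) (mul_ne_zero (mul_ne_zero (mul_ne_zero
      (MvPolynomial.X_ne_zero _) (MvPolynomial.X_ne_zero _)) (MvPolynomial.X_ne_zero _))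
      (MvPolynomial.X_ne_zero _)))
  simp only [map_mul, MvPolynomial.eval_X] at hy
  have hyF : MvPolynomial.eval y F ≠ 0 := left_ne_zero_of_mul (left_ne_zero_of_mul hy)
  have hyG : MvPolynomial.eval y G ≠ 0 := right_ne_zero_of_mul (left_ne_zero_of_mul hy)
  have hy4 := right_ne_zero_of_mul hy
  have hr1 : y (Sum.inr 1) ≠ 0 := right_ne_zero_of_mul hy4
  have hr0 : y (Sum.inr 0) ≠ 0 := right_ne_zero_of_mul (left_ne_zero_of_mul hy4)
  have hl1 : y (Sum.inl 1) ≠ 0 := right_ne_zero_of_mul (left_ne_zero_of_mul (left_ne_zero_of_mul hy4))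
  have hl0 : y (Sum.inl 0) ≠ 0 := left_ne_zero_of_mul (left_ne_zero_of_mul (left_ne_zero_of_mul hy4))
  set s0 : Fin 2 → K := fun i => y (Sum.inl i) with hs0
  set p : Fin 2 → K := fun j => y (Sum.inr j) / y (Sum.inl j) with hp
  have hp0 : ∀ j, p j ≠ 0 := by
    intro j
    fin_cases j
    · exact div_ne_zero hr0 hl0
    · exact div_ne_zero hr1 hl1
  set M : (Fin 2 → K) → Fin 2 → K := fun x j => p j * x j with hM
  have hyel : y = Sum.elim s0 (M s0) := by
    funext i
    rcases i with i | j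
    · rfl
    · fin_cases j
      · simp [hM, hs0, hp]; field_simp
      · simp [hM, hs0, hp]; field_simp
  set f : Fin 2 ⊕ Fin 2 → MvPolynomial (Fin 2) K :=
    Sum.elim (fun i => MvPolynomial.X i) (fun j => MvPolynomial.C (p j) * MvPolynomial.X j) with hf
  have hfx : ∀ x : Fin 2 → K, (fun i => MvPolynomial.eval x (f i)) = Sum.elim x (M x) := by
    intro x
    funext i
    rcases i with i | j <;> simp [hf, hM]
  have hev : ∀ (P : MvPolynomial (Fin 2 ⊕ Fin 2) K) (x : Fin 2 → K),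
      MvPolynomial.eval x (MvPolynomial.aeval f P) = MvPolynomial.eval (Sum.elim x (M x)) P := by
    intro P x
    rw [eval_subst, hfx]
  have hf1 : ∀ i, (f (Sum.inl i)).IsHomogeneous 1 := fun i => MvPolynomial.isHomogeneous_X K i
  have hf2 : ∀ j, (f (Sum.inr j)).IsHomogeneous 1 := fun j => by
    have := (MvPolynomial.isHomogeneous_C (Fin 2) (p j)).mul (MvPolynomial.isHomogeneous_X K j)
    rwa [zero_add] at this
  have hFMd : (MvPolynomial.aeval f F).IsHomogeneous (q + r) := by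
    have := bi_subst hFd f hf1 hf2
    simpa using this
  have hG1d : (MvPolynomial.aeval f G).IsHomogeneous (b + c) := by
    have := bi_subst hGd f hf1 hf2
    simpa using this
  have hFM0 : MvPolynomial.aeval f F ≠ 0 := by
    intro h
    apply hyF
    rw [hyel, ← hev, h, map_zero]
  have hG1 : MvPolynomial.aeval f G ≠ 0 := by
    intro h
    apply hyG
    rw [hyel, ← hev, h, map_zero]
  set FM : MvPolynomial (Fin 2) K := MvPolynomial.aeval f F with hFM
  -- divisibility by the squares of the variables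
  have hterm : ∀ m : Fin 2 ⊕ Fin 2 →₀ ℕ, (∏ i, f i ^ m i) =
      MvPolynomial.C (p 0 ^ m (Sum.inr 0) * p 1 ^ m (Sum.inr 1)) *
        (MvPolynomial.X 0 ^ (m (Sum.inl 0) + m (Sum.inr 0)) *
          MvPolynomial.X 1 ^ (m (Sum.inl 1) + m (Sum.inr 1))) := by
    intro m
    rw [Fintype.prod_sum_type, Fin.prod_univ_two, Fin.prod_univ_two]
    simp only [hf, Sum.elim_inl, Sum.elim_inr, mul_pow, map_mul, map_pow, pow_add]
    ring
  have hX0 : MvPolynomial.X 0 ^ 2 ∣ FM := by
    rw [hFM, MvPolynomial.aeval_def, MvPolynomial.eval₂_eq']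
    refine Finset.dvd_sum fun m hm => ?_
    rw [hterm]
    refine Dvd.dvd.mul_left (Dvd.dvd.mul_left (Dvd.dvd.mul_right ?_ _) _) _
    exact pow_dvd_pow _ (hm0 m hm)
  have hX1 : MvPolynomial.X 1 ^ 2 ∣ FM := by
    rw [hFM, MvPolynomial.aeval_def, MvPolynomial.eval₂_eq']
    refine Finset.dvd_sum fun m hm => ?_
    rw [hterm]
    refine Dvd.dvd.mul_left (Dvd.dvd.mul_left (Dvd.dvd.mul_left ?_ _) _) _
    exact pow_dvd_pow _ (hm1 m hm)
  obtain ⟨E, hE⟩ := hdiv
  set EM : MvPolynomial (Fin 2) K := MvPolynomial.aeval f E with hEM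
  have hFE : FM = lin (pf e) * EM := by
    rw [hFM, hE, map_mul]
    congr 1
    exact fib1_subst e f fun j => rfl
  have hpr : ∀ i : Fin 2, Prime (MvPolynomial.X i : MvPolynomial (Fin 2) K) :=
    fun i => MvPolynomial.X_prime
  have hnd0 : ¬ (MvPolynomial.X 0 : MvPolynomial (Fin 2) K) ∣ lin (pf e) := by
    rintro ⟨R, hR⟩
    have h1 := congrArg (MvPolynomial.eval (![0, 1] : Fin 2 → K)) hR
    rw [pf_eval, map_mul, MvPolynomial.eval_X] at h1
    simp [dt] at h1
    exact he0 h1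
  have hnd1 : ¬ (MvPolynomial.X 1 : MvPolynomial (Fin 2) K) ∣ lin (pf e) := by
    rintro ⟨R, hR⟩
    have h1 := congrArg (MvPolynomial.eval (![1, 0] : Fin 2 → K)) hR
    rw [pf_eval, map_mul, MvPolynomial.eval_X] at h1
    simp [dt] at h1
    exact he1 h1
  have hnd2 : ¬ (MvPolynomial.X 1 : MvPolynomial (Fin 2) K) ∣ lin (pf e) * MvPolynomial.X 0 ^ 2 := by
    intro h
    rcases (hpr 1).dvd_or_dvd h with h | h
    · exact hnd1 h
    · obtain ⟨R, hR⟩ := (hpr 1).dvd_of_dvd_pow h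
      have h1 := congrArg (MvPolynomial.eval (![1, 0] : Fin 2 → K)) hR
      rw [map_mul, MvPolynomial.eval_X, MvPolynomial.eval_X] at h1
      simp at h1
  obtain ⟨g1, hg1⟩ : MvPolynomial.X 0 ^ 2 ∣ EM :=
    (hpr 0).pow_dvd_of_dvd_mul_left 2 hnd0 (by rw [← hFE]; exact hX0)
  obtain ⟨g, hg⟩ : MvPolynomial.X 1 ^ 2 ∣ g1 :=
    (hpr 1).pow_dvd_of_dvd_mul_left 2 hnd2 (by
      have : FM = lin (pf e) * MvPolynomial.X 0 ^ 2 * g1 := by rw [hFE, hg1]; ring
      rw [← this]; exact hX1)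
  set R : MvPolynomial (Fin 2) K := lin (pf e) * g with hR
  set F1 : MvPolynomial (Fin 2) K := MvPolynomial.X 0 * (MvPolynomial.X 1 * R) with hF1def
  have hFMF1 : FM = MvPolynomial.X 0 * (MvPolynomial.X 1 * F1) := by
    rw [hFE, hg1, hg, hF1def, hR]; ring
  have hF1 : F1 ≠ 0 := by
    intro h
    apply hFM0
    rw [hFMF1, h, mul_zero, mul_zero]
  have hR0 : R ≠ 0 := by
    intro h
    apply hF1
    rw [hF1def, h, mul_zero, mul_zero]
  -- the degree
  obtain ⟨d, hd⟩ : ∃ d : ℕ, q + r = d + 4 := by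
    obtain ⟨m, hm⟩ := MvPolynomial.ne_zero_iff.1 hR0
    have h1 : FM = MvPolynomial.X 0 * (MvPolynomial.X 1 * (MvPolynomial.X 0 *
        (MvPolynomial.X 1 * R))) := hFMF1
    have h2 : MvPolynomial.coeff (Finsupp.single 0 1 + (Finsupp.single 1 1 + (Finsupp.single 0 1 +
        (Finsupp.single 1 1 + m)))) FM ≠ 0 := by
      rw [h1, MvPolynomial.coeff_X_mul, MvPolynomial.coeff_X_mul, MvPolynomial.coeff_X_mul,
        MvPolynomial.coeff_X_mul]
      exact hm
    have h3 := hFMd h2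
    have h4 : ∀ i : Fin 2, Finsupp.weight (1 : Fin 2 → ℕ) (Finsupp.single i 1) = 1 := by
      intro i
      rw [Finsupp.weight_single]
      simp
    simp only [map_add, h4] at h3
    exact ⟨_, by rw [← h3]; ring⟩
  have hF1d : F1.IsHomogeneous (d + 2) := by
    have h1 : (MvPolynomial.X 0 * (MvPolynomial.X 1 * F1)).IsHomogeneous (d + 2 + 1 + 1) := by
      rw [← hFMF1]
      have : d + 2 + 1 + 1 = q + r := by omega
      rw [this]
      exact hFMd
    exact hom_of_X_mul (hom_of_X_mul h1)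
  have hRd : R.IsHomogeneous d := by
    have h1 : (MvPolynomial.X 0 * (MvPolynomial.X 1 * R)).IsHomogeneous (d + 1 + 1) := hF1d
    exact hom_of_X_mul (hom_of_X_mul h1)
  -- three linear factors
  set a : Fin 3 → Fin 2 → K := ![![0, 1], ![1, 0], e] with ha
  have hadt : ∀ i j, i ≠ j → dt (a i) (a j) ≠ 0 := by
    intro i j hij
    fin_cases i <;> fin_cases j
    · exact absurd rfl hij
    · simp [ha, dt]
    · simpa [ha, dt] using he0
    · simp [ha, dt]
    · exact absurd rfl hij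
    · simpa [ha, dt] using he1
    · simpa [ha, dt] using he0
    · simpa [ha, dt] using he1
    · exact absurd rfl hij
  have hlin0 : lin (pf (a 0)) = (MvPolynomial.X 0 : MvPolynomial (Fin 2) K) := by
    unfold lin pf
    rw [Fin.sum_univ_two]
    simp [ha]
  have hlin1 : lin (pf (a 1)) = -(MvPolynomial.X 1 : MvPolynomial (Fin 2) K) := by
    unfold lin pf
    rw [Fin.sum_univ_two]
    simp [ha]
  have hlin2 : lin (pf (a 2)) = lin (pf e) := rfl
  have hd3 : (∏ i, lin (pf (a i))) ∣ F1 := by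
    rw [Fin.prod_univ_three, hlin0, hlin1, hlin2]
    refine ⟨-g, ?_⟩
    rw [hF1def, hR]; ring
  obtain ⟨a1, a2, C, T1, hmain⟩ := curve a hadt F1 hF1 hF1d hd3 _ hG1 hG1d
  -- the bad primes
  obtain ⟨T2, hT2⟩ := exists_bad (univ.image p ∪ R.support.image R.coeff)
  have hpu : ∀ v ∉ T2, ∀ j, fv v (p j) = 1 := fun v hv j =>
    (hT2 v hv (p j) (Finset.mem_union_left _ (Finset.mem_image_of_mem p (mem_univ j)))).1 (hp0 j)
  have hRc : ∀ v ∉ T2, ∀ m, fv v (R.coeff m) ≤ 1 := by
    intro v hv m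
    by_cases h : R.coeff m = 0
    · rw [h, map_zero]; exact zero_le_one
    · exact (hT2 v hv _ (Finset.mem_union_right _
        (Finset.mem_image.2 ⟨m, MvPolynomial.mem_support_iff.2 h, rfl⟩))).2
  have hMm : ∀ v ∉ T2, ∀ x : Fin 2 → K, mxv v (M x) = mxv v x := by
    intro v hv x
    unfold mxv
    simp only [hM, map_mul, hpu v hv, one_mul]
  -- the heights
  obtain ⟨c1, hc1⟩ := logHeight_mat_le (K := K) (fun (j i : Fin 2) => if j = i then p j else 0)
  obtain ⟨c2, hc2⟩ := logHeight_mat_le (K := K) (fun (j i : Fin 2) => if j = i then (p j)⁻¹ else 0)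
  have hup' : ∀ x : Fin 2 → K, logHeight (M x) ≤ logHeight x + c1 := by
    intro x
    have h1 := hc1 x
    have h2 : (fun j => ∑ i, (if j = i then p j else 0) * x i) = M x := by
      funext j
      simp [hM]
    rwa [h2] at h1
  have hlow' : ∀ x : Fin 2 → K, logHeight x ≤ logHeight (M x) + c2 := by
    intro x
    have h1 := hc2 (M x)
    have h2 : (fun j => ∑ i, (if j = i then (p j)⁻¹ else 0) * M x i) = x := by
      funext j
      have := hp0 j
      simp [hM, this]
    rwa [h2] at h1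
  refine ⟨2 * a1 + c1, 2 * a2 + c2, C + ∑ v ∈ T1 ∪ T2, ell v + |(r : ℝ) - 2| * (|c1| + |c2|),
    fun B => ?_⟩
  obtain ⟨x, t, hBt, hFx, hGx, hup, hlow, hfin, hsum⟩ := hmain B
  have hFMx : MvPolynomial.eval x FM = x 0 * (x 1 * MvPolynomial.eval x F1) := by
    rw [hFMF1, map_mul, map_mul, MvPolynomial.eval_X, MvPolynomial.eval_X]
  have hF1x : MvPolynomial.eval x F1 = x 0 * (x 1 * MvPolynomial.eval x R) := by
    rw [hF1def, map_mul, map_mul, MvPolynomial.eval_X, MvPolynomial.eval_X]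
  have hx0 : x 0 ≠ 0 := by
    intro h
    apply hFx
    rw [hF1x, h, zero_mul]
  have hx1 : x 1 ≠ 0 := by
    intro h
    apply hFx
    rw [hF1x, h, zero_mul, mul_zero]
  have hFMx0 : MvPolynomial.eval x FM ≠ 0 := by
    rw [hFMx]
    exact mul_ne_zero hx0 (mul_ne_zero hx1 hFx)
  rw [hev] at hGx
  have hFMev : MvPolynomial.eval x FM = MvPolynomial.eval (Sum.elim x (M x)) F := hev F x
  have k1 := hup' x
  have k2 := hlow' x
  refine ⟨x, M x, t, hBt, by rw [← hFMev]; exact hFMx0, hGx, fun h => hx0 (by rw [h]; rfl),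
    fun h => ?_, by linarith, by linarith, ?_⟩
  · have := congrFun h 0
    simp only [hM, Pi.zero_apply] at this
    exact mul_ne_zero (hp0 0) hx0 this
  have hmx : ∀ v, 0 < mxv v x := fun v => lt_of_lt_of_le ((fv v).pos hx0) (le_mxv v x 0)
  have h1 := cnt_le F q r x (M x) (T1 ∪ T2) hfin.toFinset (by
    intro v hv hvT
    rw [Finset.mem_union, not_or] at hv
    rw [Set.Finite.mem_toFinset] at hvT
    have h2 : mxv v x ^ (d + 2) ≤ fv v (MvPolynomial.eval x F1) :=
      not_lt.1 fun h => hvT ⟨hv.1, h⟩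
    have h3 : fv v (MvPolynomial.eval x R) ≤ mxv v x ^ d := fv_form_le v R hRd (hRc v hv.2) x
    have h4 : fv v (MvPolynomial.eval x F1) =
        fv v (x 0) * (fv v (x 1) * fv v (MvPolynomial.eval x R)) := by
      rw [hF1x, map_mul, map_mul]
    have m0 := le_mxv v x 0
    have m1 := le_mxv v x 1
    have p0 := (fv v).pos hx0
    have p1 := (fv v).pos hx1
    have pd : 0 < mxv v x ^ d := pow_pos (hmx v) d
    have h5 : mxv v x ^ 2 ≤ fv v (x 0) * fv v (x 1) := by
      have h6 : mxv v x ^ 2 * mxv v x ^ d ≤ fv v (x 0) * fv v (x 1) * mxv v x ^ d := by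
        calc mxv v x ^ 2 * mxv v x ^ d = mxv v x ^ (d + 2) := by ring
          _ ≤ fv v (x 0) * (fv v (x 1) * fv v (MvPolynomial.eval x R)) := by rw [← h4]; exact h2
          _ = fv v (x 0) * fv v (x 1) * fv v (MvPolynomial.eval x R) := by ring
          _ ≤ fv v (x 0) * fv v (x 1) * mxv v x ^ d :=
              mul_le_mul_of_nonneg_left h3 (mul_pos p0 p1).le
      exact le_of_mul_le_mul_right h6 pd
    rw [hMm v hv.2, ← pow_add, hd, ← hFMev, hFMx, map_mul, map_mul]
    calc mxv v x ^ (d + 4) = mxv v x ^ 2 * mxv v x ^ (d + 2) := by ring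
      _ ≤ (fv v (x 0) * fv v (x 1)) * fv v (MvPolynomial.eval x F1) :=
          mul_le_mul h5 h2 (pow_nonneg (mxv_nonneg v x) _) (mul_pos p0 p1).le
      _ = _ := by ring)
  have h2 := hsum hfin.toFinset fun v hv => hfin.mem_toFinset.1 hv
  have hqr : (((d + 2 : ℕ) : ℝ) - 2) = ((q : ℝ) - 2) + ((r : ℝ) - 2) := by
    have : (q : ℝ) + r = d + 4 := by exact_mod_cast hd
    push_cast
    linarith
  rw [hqr, add_mul] at h2
  have h3 : ((r : ℝ) - 2) * logHeight x ≤ ((r : ℝ) - 2) * logHeight (M x) +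
      |(r : ℝ) - 2| * (|c1| + |c2|) := by
    have h4 : ((r : ℝ) - 2) * (logHeight x - logHeight (M x)) ≤
        |(r : ℝ) - 2| * |logHeight x - logHeight (M x)| := by
      rw [← abs_mul]; exact le_abs_self _
    have h5 : |logHeight x - logHeight (M x)| ≤ |c1| + |c2| := by
      rw [abs_le]
      have := le_abs_self c1
      have := le_abs_self c2
      have := abs_nonneg c1
      have := abs_nonneg c2
      constructor <;> linarith
    have h6 := mul_le_mul_of_nonneg_left h5 (abs_nonneg ((r : ℝ) - 2))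
    linarith
  linarith

end Pool.Agent.U168.PP
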