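import Pool.Agent.U168.VJ.P1

/-!
Forms in two pairs of variables, local heights on `ℙ¹ × ℙ¹` and restriction to rational curves.
-/

set_option autoImplicit false
set_option linter.unusedSectionVars false

namespace Pool.Agent.U168.PP

open NumberField IsDedekindDomain Height Finset Pool.Agent.W231.V Pool.Agent.U168.VJ
open Pool.Agent.W231.G (exists_bad fv_mv_le)
open Pool.Agent.W231.H (Bad lin lin_eval)

/-- the weights of the variables -/
def wt : Fin 2 ⊕ Fin 2 → ℕ × ℕ := Sum.elim (fun _ => (1, 0)) (fun _ => (0, 1))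

section poly

variable {k : Type*} [Field k]

lemma weight_eq (m : Fin 2 ⊕ Fin 2 →₀ ℕ) :
    Finsupp.weight wt m = (∑ i, m (Sum.inl i), ∑ j, m (Sum.inr j)) := by
  rw [Finsupp.weight_apply, Finsupp.sum_fintype _ _ (by simp)]
  rw [Fintype.sum_sum_type]
  simp [wt, Prod.smul_mk]

lemma bi_subst {F : MvPolynomial (Fin 2 ⊕ Fin 2) k} {q r : ℕ}
    (hF : F.IsWeightedHomogeneous wt (q, r)) (f : Fin 2 ⊕ Fin 2 → MvPolynomial (Fin 2) k)
    {d1 d2 : ℕ} (h1 : ∀ i, (f (Sum.inl i)).IsHomogeneous d1)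
    (h2 : ∀ j, (f (Sum.inr j)).IsHomogeneous d2) :
    (MvPolynomial.aeval f F).IsHomogeneous (d1 * q + d2 * r) := by
  rw [MvPolynomial.aeval_def, MvPolynomial.eval₂_eq']
  refine MvPolynomial.IsHomogeneous.sum _ _ _ fun m hm => ?_
  have hw := hF (MvPolynomial.mem_support_iff.1 hm)
  rw [weight_eq] at hw
  have hq : ∑ i, m (Sum.inl i) = q := congrArg Prod.fst hw
  have hr : ∑ j, m (Sum.inr j) = r := congrArg Prod.snd hw
  have h3 : (∏ i, f i ^ m i).IsHomogeneous (d1 * q + d2 * r) := by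
    have h4 := MvPolynomial.IsHomogeneous.prod (Finset.univ) (fun i : Fin 2 ⊕ Fin 2 => f i ^ m i)
      (fun i => (Sum.elim (fun _ => d1) (fun _ => d2) i : ℕ) * m i) (fun i _ => by
        rcases i with i | j
        · exact (h1 i).pow _
        · exact (h2 j).pow _)
    have h5 : ∑ i : Fin 2 ⊕ Fin 2, (Sum.elim (fun _ => d1) (fun _ => d2) i : ℕ) * m i =
        d1 * q + d2 * r := by
      rw [Fintype.sum_sum_type, ← hq, ← hr, Finset.mul_sum, Finset.mul_sum]
      rfl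
    rwa [h5] at h4
  have h6 := (MvPolynomial.isHomogeneous_C (Fin 2) (F.coeff m)).mul h3
  rwa [zero_add] at h6

lemma eval_subst (F : MvPolynomial (Fin 2 ⊕ Fin 2) k) (f : Fin 2 ⊕ Fin 2 → MvPolynomial (Fin 2) k)
    (x : Fin 2 → k) : MvPolynomial.eval x (MvPolynomial.aeval f F) =
      MvPolynomial.eval (fun i => MvPolynomial.eval x (f i)) F := by
  rw [MvPolynomial.aeval_def, MvPolynomial.hom_eval₂]
  have h2 : (MvPolynomial.eval x).comp (algebraMap k (MvPolynomial (Fin 2) k)) =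
      RingHom.id k := by ext c; simp
  rw [h2]
  rfl

/-- the equation of the fibre of the first projection over the point `a` -/
noncomputable def fib1 (a : Fin 2 → k) : MvPolynomial (Fin 2 ⊕ Fin 2) k :=
  MvPolynomial.X (Sum.inl 0) * MvPolynomial.C (a 1) - MvPolynomial.X (Sum.inl 1) * MvPolynomial.C (a 0)

lemma fib1_subst (a : Fin 2 → k) (f : Fin 2 ⊕ Fin 2 → MvPolynomial (Fin 2) k)
    (hf : ∀ i, f (Sum.inl i) = MvPolynomial.X i) :
    MvPolynomial.aeval f (fib1 a) = lin (![a 1, - a 0]) := by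
  unfold fib1 lin
  rw [Fin.sum_univ_two]
  simp [hf]
  ring

end poly

variable {K : Type*} [Field K] [NumberField K]

lemma gp3 (a : Fin 3 → Fin 2 → K) (h : ∀ i j, i ≠ j → dt (a i) (a j) ≠ 0) :
    ∀ I : Finset (Fin (1 + 2)), I.card = 1 + 1 →
      LinearIndependent K (fun i : I => pf (a i)) := by
  classical
  intro I hI
  obtain ⟨i, j, hij, rfl⟩ := Finset.card_eq_two.1 hI
  rw [Fintype.linearIndependent_iff]
  intro g hg
  have hi : i ∈ ({i, j} : Finset (Fin 3)) := by simp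
  have hj : j ∈ ({i, j} : Finset (Fin 3)) := by simp
  have hsum : ∀ m : Fin 2, g ⟨i, hi⟩ * pf (a i) m + g ⟨j, hj⟩ * pf (a j) m = 0 := by
    intro m
    have h1 := congrFun hg m
    rw [Finset.sum_apply] at h1
    simp only [Pi.smul_apply, smul_eq_mul, Pi.zero_apply] at h1
    have h2 : ∑ c : ({i, j} : Finset (Fin 3)), g c * pf (a c) m =
        ∑ c ∈ ({i, j} : Finset (Fin 3)).attach, g c * pf (a c) m := by
      rw [← Finset.univ_eq_attach]
    have h3 : ({i, j} : Finset (Fin 3)).attach = {⟨i, hi⟩, ⟨j, hj⟩} := by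
      ext ⟨c, hc⟩
      simp only [Finset.mem_attach, Finset.mem_insert, Finset.mem_singleton, Subtype.mk.injEq,
        true_iff]
      simpa using hc
    rw [h2, h3, Finset.sum_pair (by simpa using hij)] at h1
    exact h1
  have hd : dt (a i) (a j) ≠ 0 := h _ _ hij
  have h0 := hsum 0
  have h1 := hsum 1
  simp only [pf, Matrix.cons_val_zero, Matrix.cons_val_one] at h0 h1
  have gi : g ⟨i, hi⟩ = 0 := by
    have : g ⟨i, hi⟩ * dt (a i) (a j) = 0 := by
      unfold dt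
      linear_combination (-(a j 0)) * h0 - (a j 1) * h1
    exact (mul_eq_zero.1 this).resolve_right hd
  have gj : g ⟨j, hj⟩ = 0 := by
    have : g ⟨j, hj⟩ * dt (a i) (a j) = 0 := by
      unfold dt
      linear_combination (a i 0) * h0 + (a i 1) * h1
    exact (mul_eq_zero.1 this).resolve_right hd
  rintro ⟨c, hc⟩
  have hc' : c = i ∨ c = j := by simpa using hc
  rcases hc' with rfl | rfl
  · exact gi
  · exact gj

/-- the inequality on the projective line, for a form divisible by three linear forms -/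
theorem curve (a : Fin 3 → Fin 2 → K) (ha : ∀ i j, i ≠ j → dt (a i) (a j) ≠ 0)
    (F1 : MvPolynomial (Fin 2) K) {e : ℕ} (hF1 : F1 ≠ 0) (hF1d : F1.IsHomogeneous e)
    (hdiv : (∏ i, lin (pf (a i))) ∣ F1)
    (G1 : MvPolynomial (Fin 2) K) (hG1 : G1 ≠ 0) {δ : ℕ} (hG1d : G1.IsHomogeneous δ) :
    ∃ (a1 a2 C : ℝ) (T1 : Finset (HeightOneSpectrum (𝓞 K))), ∀ B : ℝ, ∃ (x : Fin 2 → K) (t : ℝ),
      B ≤ t ∧ MvPolynomial.eval x F1 ≠ 0 ∧ MvPolynomial.eval x G1 ≠ 0 ∧
      logHeight x ≤ (totalWeight K : ℝ) * t + a1 ∧ (totalWeight K : ℝ) * t - a2 ≤ logHeight x ∧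
      {v : HeightOneSpectrum (𝓞 K) | v ∉ T1 ∧
        fv v (MvPolynomial.eval x F1) < mxv v x ^ e}.Finite ∧
      ∀ T : Finset (HeightOneSpectrum (𝓞 K)),
        (∀ v ∈ T, v ∉ T1 ∧ fv v (MvPolynomial.eval x F1) < mxv v x ^ e) →
        ∑ v ∈ T, ell v + (totalWeight K : ℝ) * (6.84 * √t / Real.log t) ≤
          ((e : ℝ) - 2) * logHeight x + C := by
  classical
  obtain ⟨a1, a2, C, hmain⟩ := main_raw (le_refl 1) (fun i => pf (a i)) (gp3 a ha) F1 hF1 hF1d
    hdiv (Ω := K) G1 hG1 hG1d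
  obtain ⟨T1, hT1⟩ := exists_bad (F1.support.image F1.coeff)
  have g4 : ∀ v ∉ T1, 1 ≤ ⨆ m, fv v (F1.coeff m) := by
    intro v hv
    obtain ⟨m, hm⟩ := MvPolynomial.ne_zero_iff.1 hF1
    have hmem : F1.coeff m ∈ F1.support.image F1.coeff :=
      Finset.mem_image.2 ⟨m, MvPolynomial.mem_support_iff.2 hm, rfl⟩
    rw [← (hT1 v hv _ hmem).1 hm]
    refine le_ciSup (f := fun m => fv v (F1.coeff m)) ⟨1, ?_⟩ m
    rintro _ ⟨m', rfl⟩
    by_cases h : F1.coeff m' = 0
    · simp [h]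
    · exact (hT1 v hv _ (Finset.mem_image.2 ⟨m', MvPolynomial.mem_support_iff.2 h, rfl⟩)).2
  refine ⟨a1, a2, C, T1, fun B => ?_⟩
  obtain ⟨x, t, hBt, hFx, hGx, hup, hlow, hfin, hsum⟩ := hmain B
  have hsup : ∀ v : HeightOneSpectrum (𝓞 K), mxv v x ≤ ⨆ j, fv v (x j) := by
    intro v
    exact max_le (le_ciSup (f := fun j => fv v (x j)) (Set.finite_range _).bddAbove 0)
      (le_ciSup (f := fun j => fv v (x j)) (Set.finite_range _).bddAbove 1)
  have hbad : ∀ v, (v ∉ T1 ∧ fv v (MvPolynomial.eval x F1) < mxv v x ^ e) → Bad v F1 e x := by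
    rintro v ⟨hv, hl⟩
    unfold Bad
    calc fv v (MvPolynomial.eval x F1) < mxv v x ^ e := hl
      _ ≤ (⨆ j, fv v (x j)) ^ e := pow_le_pow_left₀ (mxv_nonneg v x) (hsup v) _
      _ ≤ (⨆ m, fv v (F1.coeff m)) * (⨆ j, fv v (x j)) ^ e :=
          le_mul_of_one_le_left (pow_nonneg ((mxv_nonneg v x).trans (hsup v)) _) (g4 v hv)
  refine ⟨x, t, hBt, hFx, ?_, hup, hlow, hfin.subset fun v hv => hbad v hv, fun T hT => ?_⟩
  · simpa using hGx
  have h1 := hsum T fun v hv => hbad v (hT v hv)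
  have h2 : ((1 : ℕ) : ℝ) / ((1 : ℕ) + 1) = 1 / 2 := by norm_num
  rw [kap_one, h2, ← Real.sqrt_eq_rpow] at h1
  have h3 : ((e : ℝ) - (1 : ℕ) - 1) = e - 2 := by push_cast; ring
  rw [h3] at h1
  exact h1

/-- the local height for the divisor `F = 0` -/
noncomputable def loc (v : HeightOneSpectrum (𝓞 K)) (F : MvPolynomial (Fin 2 ⊕ Fin 2) K) (q r : ℕ)
    (s t : Fin 2 → K) : ℝ :=
  -Real.log (fv v (MvPolynomial.eval (Sum.elim s t) F) / (mxv v s ^ q * mxv v t ^ r))

/-- the truncated counting function -/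
noncomputable def cnt (F : MvPolynomial (Fin 2 ⊕ Fin 2) K) (q r : ℕ) (s t : Fin 2 → K) : ℝ :=
  ∑ᶠ v : HeightOneSpectrum (𝓞 K), min (ell v) (loc v F q r s t)

lemma finsum_le {α : Type*} (f : α → ℝ) (S : Finset α) (g : α → ℝ) (h1 : ∀ v ∈ S, f v ≤ g v)
    (h0 : ∀ v ∉ S, f v ≤ 0) (hg : ∀ v ∈ S, 0 ≤ g v) : ∑ᶠ v, f v ≤ ∑ v ∈ S, g v := by
  classical
  by_cases hfin : (Function.support f).Finite
  · rw [finsum_eq_sum_of_support_subset f (s := hfin.toFinset ∪ S) (by
      intro v hv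
      simp only [Finset.coe_union, Set.Finite.coe_toFinset]
      exact Or.inl hv)]
    rw [Finset.union_comm, ← Finset.union_sdiff_self_eq_union, Finset.sum_union Finset.disjoint_sdiff]
    have h2 : ∑ v ∈ hfin.toFinset \ S, f v ≤ 0 :=
      Finset.sum_nonpos fun v hv => h0 v (Finset.mem_sdiff.1 hv).2
    have h3 := Finset.sum_le_sum h1
    linarith
  · rw [finsum_of_infinite_support hfin]
    exact Finset.sum_nonneg hg

/-- the truncated counting function is at most the sum over the places of bad reduction and the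
places at which `s, t` is close to the divisor -/
lemma cnt_le (F : MvPolynomial (Fin 2 ⊕ Fin 2) K) (q r : ℕ) (s t : Fin 2 → K)
    (T0 T : Finset (HeightOneSpectrum (𝓞 K)))
    (h : ∀ v, v ∉ T0 → v ∉ T → mxv v s ^ q * mxv v t ^ r ≤
      fv v (MvPolynomial.eval (Sum.elim s t) F)) :
    cnt F q r s t ≤ ∑ v ∈ T0, ell v + ∑ v ∈ T, ell v := by
  classical
  have h1 : cnt F q r s t ≤ ∑ v ∈ T0 ∪ T, ell v := by
    refine finsum_le _ _ _ (fun v _ => min_le_left _ _) (fun v hv => ?_) (fun v _ => (ell_pos v).le)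
    rw [Finset.mem_union, not_or] at hv
    refine (min_le_right _ _).trans ?_
    unfold loc
    have h2 := h v hv.1 hv.2
    have h3 : 0 ≤ mxv v s ^ q * mxv v t ^ r :=
      mul_nonneg (pow_nonneg (mxv_nonneg v s) _) (pow_nonneg (mxv_nonneg v t) _)
    rcases h3.eq_or_lt with h4 | h4
    · rw [← h4]; simp
    · have : 1 ≤ fv v (MvPolynomial.eval (Sum.elim s t) F) / (mxv v s ^ q * mxv v t ^ r) := by
        rwa [le_div_iff₀ h4, one_mul]
      have := Real.log_nonneg this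
      linarith
  refine h1.trans ?_
  rw [← Finset.sum_union_inter]
  have : 0 ≤ ∑ v ∈ T0 ∩ T, ell v := Finset.sum_nonneg fun v _ => (ell_pos v).le
  linarith

end Pool.Agent.U168.PP
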